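import Pool.Agent.TH115.GD.MaxRk
import Pool.Agent.TH115.GD.Rk

/-!
Composition of polynomials with a polynomial which keeps given polynomials irreducible, and the
pull-back of the points of the curve `y ^ 2 = x (x - a) (x - b)`.
-/

set_option autoImplicit false
set_option linter.all false

open Polynomial IsDedekindDomain WeierstrassCurve WeierstrassCurve.Affine
open scoped Classical

namespace Pool.Agent.Q59.PB

open Pool.Agent.TH115.GD

section poly

variable {k : Type} [Field k] {g : k[X]}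

theorem comp_ne {p : k[X]} (hg : 0 < g.natDegree) (hp : p ≠ 0) : p.comp g ≠ 0 := by
  intro h
  rcases comp_eq_zero_iff.1 h with h | ⟨_, h⟩
  · exact hp h
  · rw [h, natDegree_C] at hg
    exact lt_irrefl _ hg

/-- All the irreducible factors of `p` stay irreducible. -/
def Keeps (g p : k[X]) : Prop :=
  ∀ π : k[X], Irreducible π → π ∣ p → Irreducible (π.comp g) ∧ (π.comp g).Separable

theorem Keeps.mono {p q : k[X]} (h : Keeps g q) (hd : p ∣ q) : Keeps g p :=
  fun π h1 h2 => h π h1 (h2.trans hd)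

/-- Divisors of `p ∘ g`. -/
theorem lift_dvd (hg : 0 < g.natDegree) : ∀ {p : k[X]}, p ≠ 0 → Keeps g p →
    ∀ {A : k[X]}, A ∣ p.comp g → Squarefree A →
      ∃ (c : k) (B : k[X]), c ≠ 0 ∧ B.Monic ∧ B ∣ p ∧ A = C c * B.comp g := by
  intro p
  induction p using WfDvdMonoid.induction_on_irreducible with
  | zero => intro h; exact absurd rfl h
  | unit u hu =>
    intro _ _ A hA _
    obtain ⟨c, hc, rfl⟩ := Polynomial.isUnit_iff.1 hu
    rw [C_comp] at hA
    obtain ⟨c', hc', rfl⟩ := dvd_C hc.ne_zero hA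
    exact ⟨c', 1, hc', monic_one, one_dvd _, by rw [one_comp, mul_one]⟩
  | mul q π hq hπ ih =>
    intro h0 hK A hA hs
    have hπ' := (hK π hπ (dvd_mul_right π q)).1
    have hKq : Keeps g q := hK.mono (dvd_mul_left q π)
    rw [mul_comp] at hA
    by_cases hd : π.comp g ∣ A
    · obtain ⟨A', rfl⟩ := hd
      have hA' : A' ∣ q.comp g := (mul_dvd_mul_iff_left hπ'.ne_zero).1 hA
      obtain ⟨c, B, hc, hB, hBq, rfl⟩ := ih hq hKq hA' (hs.of_mul_right)
      have hl : π.leadingCoeff ≠ 0 := leadingCoeff_ne_zero.2 hπ.ne_zero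
      refine ⟨π.leadingCoeff * c, C π.leadingCoeff⁻¹ * π * B, mul_ne_zero hl hc, ?_, ?_, ?_⟩
      · refine Monic.mul ?_ hB
        rw [Monic, leadingCoeff_mul, leadingCoeff_C, inv_mul_cancel₀ hl]
      · refine mul_dvd_mul ?_ hBq
        have hu : IsUnit (C π.leadingCoeff⁻¹ : k[X]) :=
          isUnit_C.2 (isUnit_iff_ne_zero.2 (inv_ne_zero hl))
        exact (hu.mul_left_dvd).2 dvd_rfl
      · rw [mul_comp, mul_comp, C_comp]
        have : C π.leadingCoeff * C π.leadingCoeff⁻¹ = (1 : k[X]) := by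
          rw [← C_mul, mul_inv_cancel₀ hl, C_1]
        rw [C_mul]
        linear_combination (-(C c * π.comp g * B.comp g)) * this
    · have hco : IsCoprime (π.comp g) A := (hπ'.coprime_iff_not_dvd).2 hd
      obtain ⟨c, B, hc, hB, hBq, rfl⟩ := ih hq hKq (hco.symm.dvd_of_dvd_mul_left hA) hs
      exact ⟨c, B, hc, hB, hBq.trans (dvd_mul_left q π), rfl⟩

/-- Irreducible divisors of `p ∘ g`. -/
theorem irr_dvd : ∀ {p : k[X]}, p ≠ 0 → ∀ {ρ : k[X]}, Irreducible ρ → ρ ∣ p.comp g →
    ∃ π : k[X], Irreducible π ∧ π ∣ p ∧ ρ ∣ π.comp g := by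
  intro p
  induction p using WfDvdMonoid.induction_on_irreducible with
  | zero => intro h; exact absurd rfl h
  | unit u hu =>
    intro _ ρ hρ hd
    obtain ⟨c, hc, rfl⟩ := Polynomial.isUnit_iff.1 hu
    rw [C_comp] at hd
    exact absurd (isUnit_of_dvd_unit hd (isUnit_C.2 hc)) hρ.not_isUnit
  | mul q π hq hπ ih =>
    intro _ ρ hρ hd
    rw [mul_comp] at hd
    rcases hρ.prime.dvd_or_dvd hd with h | h
    · exact ⟨π, hπ, dvd_mul_right _ _, h⟩
    · obtain ⟨π', h1, h3, h4⟩ := ih hq hρ h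
      exact ⟨π', h1, h3.trans (dvd_mul_left _ _), h4⟩

theorem squarefree_of_comp (hg : 0 < g.natDegree) {A : k[X]} (h : Squarefree (A.comp g)) :
    Squarefree A := by
  intro x ⟨y, hy⟩
  have h1 : x.comp g * x.comp g ∣ A.comp g := ⟨y.comp g, by rw [hy, mul_comp, mul_comp]⟩
  have h3 := h _ h1
  have h4 := natDegree_eq_zero_of_isUnit h3
  rw [natDegree_comp] at h4
  have h5 : x.natDegree = 0 := by
    rcases Nat.mul_eq_zero.1 h4 with h5 | h5
    · exact h5
    · omega
  rw [eq_C_of_natDegree_eq_zero h5] at h3 ⊢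
  rw [C_comp] at h3
  exact h3

theorem coprime_comp {p q : k[X]} (h : IsCoprime p q) : IsCoprime (p.comp g) (q.comp g) :=
  h.map (compRingHom g)

theorem oddFactor_comp (hg : Odd g.natDegree) {p : k[X]} (hK : Keeps g p)
    (h : HasOddFactor p) : HasOddFactor (p.comp g) := by
  obtain ⟨π, m, h1, h3, h4, h5⟩ := h
  have hπ := (hK π h1 ((dvd_pow_self π (Nat.succ_ne_zero _)).trans h4)).1
  refine ⟨π.comp g, m, hπ, ?_, ?_, ?_⟩
  · rw [natDegree_comp]
    exact h3.mul hg
  · obtain ⟨q, rfl⟩ := h4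
    rw [mul_comp, pow_comp]
    exact dvd_mul_right _ _
  · obtain ⟨q, rfl⟩ := h4
    have hq : ¬ π ∣ q := by
      intro h6
      apply h5
      rw [pow_succ]
      exact mul_dvd_mul dvd_rfl h6
    have hco : IsCoprime (π.comp g) (q.comp g) :=
      coprime_comp ((h1.coprime_iff_not_dvd).2 hq)
    intro h6
    rw [mul_comp, pow_comp, pow_succ, mul_dvd_mul_iff_left (pow_ne_zero _ hπ.ne_zero)] at h6
    exact (hπ.coprime_iff_not_dvd.1 hco) h6

theorem infCond_comp (hg : Odd g.natDegree) {a b A B D A' B' D' : k[X]} {c1 c2 c3 : k}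
    (h1 : c1 ≠ 0) (h2 : c2 ≠ 0) (h3 : c3 ≠ 0) (hA : A' = C c1 * A.comp g)
    (hB : B' = C c2 * B.comp g) (hD : D' = C c3 * D.comp g)
    (h : InfCond (a.comp g) (b.comp g) A' B' D') : InfCond a b A B D := by
  have key : ∀ {u v : k} (hu : u ≠ 0) (hv : v ≠ 0) (p q : k[X]),
      (C u * p.comp g * (C v * q.comp g)).natDegree = (p * q).natDegree * g.natDegree := by
    intro u v hu hv p q
    have e : C u * p.comp g * (C v * q.comp g) = C (u * v) * (p * q).comp g := by
      rw [mul_comp, C_mul]; ring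
    rw [e, natDegree_C_mul (mul_ne_zero hu hv), natDegree_comp]
  have ev : ∀ m : ℕ, Even (m * g.natDegree) ↔ Even m := by
    intro m
    rw [Nat.even_mul]
    constructor
    · rintro (h' | h')
      · exact h'
      · exact absurd h' (Nat.not_even_iff_odd.2 hg)
    · exact Or.inl
  have hn := hg.pos
  have emax : max (a.comp g).natDegree (b.comp g).natDegree =
      max a.natDegree b.natDegree * g.natDegree := by
    rw [natDegree_comp, natDegree_comp, Nat.mul_max_mul_right]
  have esub : (a.comp g - b.comp g).natDegree = (a - b).natDegree * g.natDegree := by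
    rw [← sub_comp, natDegree_comp]
  intro he
  obtain ⟨i1, i3, i4⟩ := h (by rw [emax, ev]; exact he)
  rw [hA, hB, key h1 h2, ev] at i1
  rw [hA, hD, key h1 h3, ev] at i3
  rw [hB, hD, key h2 h3, ev] at i4
  refine ⟨fun e => i1 ?_, fun e e' => i3 ?_ ?_, fun e e' => i4 ?_ ?_⟩
  · rw [natDegree_comp, natDegree_comp, e]
  · rw [emax, natDegree_comp, ← e]
  · rw [emax, esub, e']
  · rw [emax, natDegree_comp, ← e]
  · rw [emax, esub, e']

end poly

section fields

variable {k K₀ K : Type} [Field k] [Field K₀] [Algebra k[X] K₀] [Field K] [Algebra k[X] K]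
  [IsFractionRing k[X] K₀] [IsFractionRing k[X] K]

/-- Composition with `g` on the fields of fractions. -/
noncomputable def phi (K₀ K : Type) [Field K₀] [Algebra k[X] K₀] [Field K] [Algebra k[X] K]
    [IsFractionRing k[X] K₀] [IsFractionRing k[X] K] (g : k[X]) (hg : 0 < g.natDegree) :
    K₀ →+* K :=
  IsFractionRing.lift (A := k[X]) (K := K₀) (g := (algebraMap k[X] K).comp (compRingHom g)) (by
    rw [injective_iff_map_eq_zero]
    intro p hp
    by_contra h
    exact comp_ne hg h ((map_eq_zero_iff _ (IsFractionRing.injective k[X] K)).1 hp))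

theorem phi_alg {g : k[X]} (hg : 0 < g.natDegree) (p : k[X]) :
    phi K₀ K g hg (algebraMap k[X] K₀ p) = algebraMap k[X] K (p.comp g) := by
  rw [phi, IsFractionRing.lift_algebraMap]
  rfl

end fields

end Pool.Agent.Q59.PB
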