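import Pool.Agent.Q59.PB.Rat
import Pool.Agent.TH115.SK.CntK
import Pool.Agent.TH115.SD.Ind

/-!
Maximal rank is preserved by pull-backs.
-/

set_option autoImplicit false
set_option linter.all false

open Polynomial IsDedekindDomain WeierstrassCurve WeierstrassCurve.Affine
open scoped Classical

namespace Pool.Agent.Q59.PB

open Pool.Agent.TH115.GD

section sq

variable {k k' : Type} [Field k] [Field k'] [Algebra k k'] [IsSepClosed k'] {g : k[X]}

theorem sq_of_even (hg : 0 < g.natDegree) : ∀ (n : ℕ) (p : k[X]), p.natDegree ≤ n → p ≠ 0 →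
    Keeps g p → (∀ θ : k', Even (rootMultiplicity θ ((p.comp g).map (algebraMap k k')))) →
    ∃ (u : k) (q : k[X]), u ≠ 0 ∧ q ≠ 0 ∧ p = C u * q ^ 2 := by
  intro n
  induction n with
  | zero =>
    intro p hp h0 _ _
    have e := eq_C_of_natDegree_eq_zero (Nat.le_zero.1 hp)
    refine ⟨p.coeff 0, 1, ?_, one_ne_zero, by rw [one_pow, mul_one]; exact e⟩
    intro h
    rw [h, C_0] at e
    exact h0 e
  | succ n ih =>
    intro p hp h0 hK hev
    by_cases hu : IsUnit p
    · obtain ⟨c, hc, rfl⟩ := Polynomial.isUnit_iff.1 hu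
      exact ⟨c, 1, hc.ne_zero, one_ne_zero, by rw [one_pow, mul_one]⟩
    obtain ⟨π, hπ, p1, rfl⟩ := WfDvdMonoid.exists_irreducible_factor hu h0
    have hp1 : p1 ≠ 0 := right_ne_zero_of_mul h0
    obtain ⟨hi, hs⟩ := hK π hπ (dvd_mul_right π p1)
    have hdeg : (π.comp g).degree ≠ 0 := fun h => by
      have h1 := natDegree_eq_of_degree_eq_some h
      have h3 := hi.natDegree_pos
      rw [h1] at h3
      exact lt_irrefl _ h3
    obtain ⟨θ, hθ⟩ := IsSepClosed.exists_aeval_eq_zero k' (π.comp g) hdeg hs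
    have inj := (algebraMap k k').injective
    have n1 : (π.comp g).map (algebraMap k k') ≠ 0 :=
      (Polynomial.map_ne_zero_iff inj).2 hi.ne_zero
    have m1 : ∀ ζ : k', rootMultiplicity ζ ((π.comp g).map (algebraMap k k')) ≤ 1 := fun ζ =>
      rootMultiplicity_le_one_of_separable hs.map ζ
    have m2 : rootMultiplicity θ ((π.comp g).map (algebraMap k k')) = 1 := by
      have h1 : 0 < rootMultiplicity θ ((π.comp g).map (algebraMap k k')) := by
        rw [rootMultiplicity_pos n1, IsRoot, eval_map_algebraMap]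
        exact hθ
      have := m1 θ
      omega
    have mm : ∀ (q : k[X]), q ≠ 0 → ∀ ζ : k',
        rootMultiplicity ζ (((π * q).comp g).map (algebraMap k k')) =
          rootMultiplicity ζ ((π.comp g).map (algebraMap k k')) +
            rootMultiplicity ζ ((q.comp g).map (algebraMap k k')) := by
      intro q hq ζ
      rw [mul_comp, Polynomial.map_mul, rootMultiplicity_mul]
      exact mul_ne_zero n1 ((Polynomial.map_ne_zero_iff inj).2 (comp_ne hg hq))
    have h1 : 0 < rootMultiplicity θ ((p1.comp g).map (algebraMap k k')) := by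
      by_contra h
      have h' : rootMultiplicity θ ((p1.comp g).map (algebraMap k k')) = 0 := by omega
      have h3 := hev θ
      rw [mm p1 hp1, m2, h'] at h3
      exact absurd h3 (by decide)
    have h3 : aeval θ (p1.comp g) = 0 := by
      have n2 : (p1.comp g).map (algebraMap k k') ≠ 0 :=
        (Polynomial.map_ne_zero_iff inj).2 (comp_ne hg hp1)
      rw [rootMultiplicity_pos n2, IsRoot, eval_map_algebraMap] at h1
      exact h1
    have h4 : π ∣ p1 := by
      by_contra hd
      have hco : IsCoprime (π.comp g) (p1.comp g) :=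
        coprime_comp ((hπ.coprime_iff_not_dvd).2 hd)
      obtain ⟨u, v, e⟩ := hco
      have := congrArg (aeval θ) e
      rw [map_add, map_mul, map_mul, hθ, h3, mul_zero, mul_zero, add_zero, map_one] at this
      exact zero_ne_one this
    obtain ⟨p2, rfl⟩ := h4
    have hp2 : p2 ≠ 0 := right_ne_zero_of_mul hp1
    obtain ⟨u, q, hu', hq, e⟩ := ih p2 (by
      have e1 := natDegree_mul hπ.ne_zero hp1
      have e2 := natDegree_mul hπ.ne_zero hp2
      have := hπ.natDegree_pos
      omega) hp2 (hK.mono ((dvd_mul_left p2 π).mul_left π)) (fun ζ => by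
        have h5 := hev ζ
        rw [mm _ hp1, mm _ hp2, ← add_assoc, ← two_mul, Nat.even_add] at h5
        exact h5.1 (even_two_mul _))
    exact ⟨u, π * q, hu', mul_ne_zero hπ.ne_zero hq, by rw [e]; ring⟩

end sq

section core

variable {k k' K F : Type} [Field k] [Field k'] [Algebra k k'] [Field K] [Algebra k[X] K]
    [Field F] [Algebra k'[X] F] [IsFractionRing k'[X] F] [Algebra K F]

theorem sqEq_one_sq {F : Type} [Field F] {x y : F} (h : SqEq x y) (hy : SqEq y 1) : SqEq x 1 :=
  h.trans hy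

/-- If `p ∘ g` is a square in `F`, then `p` is a square in `F`. -/
theorem sq_comp (hT : IsTower k k' K F) (h2 : (2 : k) ≠ 0) {p g : k[X]} (hg : 0 < g.natDegree)
    (hp : p ≠ 0) (hK : Keeps g p) (h : SqEq (emb k K F (p.comp g)) 1) :
    SqEq (emb k K F p) 1 := by
  haveI := hT.sep
  haveI := hT.fracK
  haveI : IsSepClosed k' := IsSepClosure.sep_closed k
  have hev : ∀ θ : k', Even (rootMultiplicity θ ((p.comp g).map (algebraMap k k'))) := by
    intro θ
    obtain ⟨c, hc, e⟩ := h
    have h1 := par_root hT.map (p.comp g) (comp_ne hg hp) θ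
    change algebraMap K F (algebraMap k[X] K (p.comp g)) = c ^ 2 * 1 at e
    rw [e, mul_one, par_pow_two _ hc] at h1
    exact (ZMod.natCast_eq_zero_iff_even).1 h1.symm
  obtain ⟨u, q, hu, hq, rfl⟩ := sq_of_even hg _ p le_rfl hp hK hev
  have h3 := emb_sq (K := K) (F := F) hT h2 hu hq 1
  rw [mul_one, map_one] at h3
  exact h3

variable (hT : IsTower k k' K F) (h2 : (2 : k) ≠ 0) {a b : k[X]} (ha : a ≠ 0) (hb : b ≠ 0)
  (hab : a ≠ b) (hco : IsCoprime a b)
  (hodd : Odd (max a.natDegree b.natDegree) ∨ TwoOddFactors a b)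

/-- The coordinates of the sum of points. -/
theorem d_sum (hT : IsTower k k' K F) (h2 : (2 : k) ≠ 0) (ha : a ≠ 0) (hb : b ≠ 0)
    (hab : a ≠ b) {κ : Type} (s : Finset κ)
    (G : κ → Pt (crv (algebraMap k[X] K a) (algebraMap k[X] K b)) K) :
    SqEq (d0 (algebraMap k[X] K a) (algebraMap k[X] K b) (∑ i ∈ s, G i))
      (∏ i ∈ s, d0 (algebraMap k[X] K a) (algebraMap k[X] K b) (G i)) ∧
    SqEq (d1 (algebraMap k[X] K a) (algebraMap k[X] K b) (∑ i ∈ s, G i))
      (∏ i ∈ s, d1 (algebraMap k[X] K a) (algebraMap k[X] K b) (G i)) := by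
  induction s using Finset.induction_on with
  | empty => exact ⟨SqEq.refl _, SqEq.refl _⟩
  | insert i s hi ih =>
    rw [Finset.sum_insert hi, Finset.prod_insert hi, Finset.prod_insert hi]
    obtain ⟨e0, e1⟩ := d_add' hT h2 ha hb hab (G i) (∑ i ∈ s, G i)
    exact ⟨e0.trans ((SqEq.refl _).mul ih.1), e1.trans ((SqEq.refl _).mul ih.2)⟩

/-- The points of order two of the pull-back. -/
theorem two_pull {K : Type} [Field K] (h2 : (2 : K) ≠ 0) (φ : K →+* K) {α β : K} (hα : α ≠ 0)
    (hβ : β ≠ 0) (hαβ : α ≠ β) (T : Pt (crv (φ α) (φ β)) K) (hT : T + T = 0) :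
    ∃ T₀ : Pt (crv α β) K, T₀ + T₀ = 0 ∧ d0 (φ α) (φ β) T = φ (d0 α β T₀) ∧
      d1 (φ α) (φ β) T = φ (d1 α β T₀) := by
  have inj := φ.injective
  have hα' : φ α ≠ 0 := (_root_.map_ne_zero φ).2 hα
  have hβ' : φ β ≠ 0 := (_root_.map_ne_zero φ).2 hβ
  have hαβ' : φ α ≠ φ β := fun h => hαβ (inj h)
  have hE0 := isE α β K h2 hα hβ hαβ
  have hE := isE (φ α) (φ β) K h2 hα' hβ' hαβ'
  rcases T with _ | ⟨x, y, hxy⟩
  · exact ⟨0, add_zero 0, (map_one φ).symm, (map_one φ).symm⟩
  · have hy := (add_self_eq_zero_iff hE hxy).1 hT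
    subst hy
    have e : (0 : K) ^ 2 = x * (x - φ α) * (x - φ β) := hE.nonsingular.1 hxy
    have e' : x = 0 ∨ x = φ α ∨ x = φ β := by
      rw [zero_pow two_ne_zero] at e
      rcases mul_eq_zero.1 e.symm with h | h
      · rcases mul_eq_zero.1 h with h | h
        · exact Or.inl h
        · exact Or.inr (Or.inl (sub_eq_zero.1 h))
      · exact Or.inr (Or.inr (sub_eq_zero.1 h))
    rcases e' with rfl | rfl | rfl
    · have n0 : ((crv α β).baseChange K).toAffine.Nonsingular 0 0 := hE0.nonsingular.2 (by ring)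
      refine ⟨Point.some 0 0 n0, (add_self_eq_zero_iff hE0 n0).2 rfl, ?_, ?_⟩
      · show (if (0 : K) = 0 then φ α * φ β else 0) = φ (if (0 : K) = 0 then α * β else 0)
        rw [if_pos rfl, if_pos rfl, map_mul]
      · show (if (0 : K) = φ α then φ α * (φ α - φ β) else 0 - φ α) =
          φ (if (0 : K) = α then α * (α - β) else 0 - α)
        rw [if_neg (Ne.symm hα'), if_neg (Ne.symm hα), map_sub, map_zero]
    · have n0 : ((crv α β).baseChange K).toAffine.Nonsingular α 0 := hE0.nonsingular.2 (by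
        show (0 : K) ^ 2 = α * (α - α) * (α - β)
        ring)
      refine ⟨Point.some α 0 n0, (add_self_eq_zero_iff hE0 n0).2 rfl, ?_, ?_⟩
      · show (if φ α = 0 then φ α * φ β else φ α) = φ (if α = 0 then α * β else α)
        rw [if_neg hα', if_neg hα]
      · show (if φ α = φ α then φ α * (φ α - φ β) else φ α - φ α) =
          φ (if α = α then α * (α - β) else α - α)
        rw [if_pos rfl, if_pos rfl, map_mul, map_sub]
    · have n0 : ((crv α β).baseChange K).toAffine.Nonsingular β 0 := hE0.nonsingular.2 (by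
        show (0 : K) ^ 2 = β * (β - α) * (β - β)
        ring)
      refine ⟨Point.some β 0 n0, (add_self_eq_zero_iff hE0 n0).2 rfl, ?_, ?_⟩
      · show (if φ β = 0 then φ α * φ β else φ β) = φ (if β = 0 then α * β else β)
        rw [if_neg hβ', if_neg hβ]
      · show (if φ β = φ α then φ α * (φ α - φ β) else φ β - φ α) =
          φ (if β = α then α * (α - β) else β - α)
        rw [if_neg (Ne.symm hαβ'), if_neg (Ne.symm hαβ), map_sub]

end core

section ind

variable {k k' K F : Type} [Field k] [Field k'] [Algebra k k'] [Field K] [Algebra k[X] K]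
    [Field F] [Algebra k'[X] F] [IsFractionRing k'[X] F] [Algebra K F]

/-- Independence is preserved by pull-backs. -/
theorem ind_comp (hT : IsTower k k' K F) (h2 : (2 : k) ≠ 0) {a b g : k[X]} (ha : a ≠ 0)
    (hb : b ≠ 0) (hab : a ≠ b) (hco : IsCoprime a b)
    (hodd : Odd (max a.natDegree b.natDegree) ∨ TwoOddFactors a b) (hg : Odd g.natDegree)
    (hK : Keeps g (a * b * (a - b))) {d : ℕ}
    (P : Fin d → Pt (crv (algebraMap k[X] K a) (algebraMap k[X] K b)) K)
    (hP : ∀ S : Finset (Fin d), S.Nonempty →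
      ∀ T Q : Pt (crv (algebraMap k[X] K a) (algebraMap k[X] K b)) K, T + T = 0 →
        ∑ i ∈ S, P i ≠ T + (Q + Q)) :
    ∃ P' : Fin d → Pt (crv (algebraMap k[X] K (a.comp g)) (algebraMap k[X] K (b.comp g))) K,
      ∀ S : Finset (Fin d), S.Nonempty →
        ∀ T Q : Pt (crv (algebraMap k[X] K (a.comp g)) (algebraMap k[X] K (b.comp g))) K,
          T + T = 0 → ∑ i ∈ S, P' i ≠ T + (Q + Q) := by
  haveI := hT.sep
  haveI := hT.fracK
  have hn := hg.pos
  have h2K : (2 : K) ≠ 0 := tt h2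
  have hn' : 0 < (g.map (algebraMap k k')).natDegree := by
    rw [natDegree_map]; exact hn
  let φ : K →+* K := phi K K g hn
  let ψ : F →+* F := phi F F (g.map (algebraMap k k')) hn'
  have hφ : ∀ p : k[X], φ (algebraMap k[X] K p) = algebraMap k[X] K (p.comp g) := phi_alg hn
  have hψ : ∀ p : k'[X], ψ (algebraMap k'[X] F p) =
      algebraMap k'[X] F (p.comp (g.map (algebraMap k k'))) := phi_alg hn'
  have comm : ∀ x : K, ψ (algebraMap K F x) = algebraMap K F (φ x) := by
    intro x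
    obtain ⟨p, q, hq, rfl⟩ := IsFractionRing.div_surjective (A := k[X]) x
    have key : ∀ p : k[X], ψ (algebraMap K F (algebraMap k[X] K p)) =
        algebraMap K F (φ (algebraMap k[X] K p)) := by
      intro p
      rw [hT.map, hψ, hφ, hT.map, map_comp]
    rw [map_div₀, map_div₀, map_div₀, map_div₀, key, key]
  have inj := IsFractionRing.injective k[X] K
  have haK : algebraMap k[X] K a ≠ 0 := by simpa using ha
  have hbK : algebraMap k[X] K b ≠ 0 := by simpa using hb
  have habK : algebraMap k[X] K a ≠ algebraMap k[X] K b := fun h => hab (inj h)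
  have hsub : a - b ≠ 0 := sub_ne_zero.2 hab
  have hprod : a * b * (a - b) ≠ 0 := mul_ne_zero (mul_ne_zero ha hb) hsub
  have hsep : ∀ π : k[X], Irreducible π → π ∣ a * b * (a - b) → π.Separable :=
    fun π h1 h3 => sep_of_comp h1 (hK π h1 h3).1 (hK π h1 h3).2
  have ha' : a.comp g ≠ 0 := comp_ne hn ha
  have hb' : b.comp g ≠ 0 := comp_ne hn hb
  have hab' : a.comp g ≠ b.comp g := by
    rw [← sub_ne_zero, ← sub_comp]
    exact comp_ne hn hsub
  have pull : ∀ P : Pt (crv (algebraMap k[X] K a) (algebraMap k[X] K b)) K,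
      ∃ Q : Pt (crv (algebraMap k[X] K (a.comp g)) (algebraMap k[X] K (b.comp g))) K,
        d0 (algebraMap k[X] K (a.comp g)) (algebraMap k[X] K (b.comp g)) Q =
          φ (d0 (algebraMap k[X] K a) (algebraMap k[X] K b) P) ∧
        d1 (algebraMap k[X] K (a.comp g)) (algebraMap k[X] K (b.comp g)) Q =
          φ (d1 (algebraMap k[X] K a) (algebraMap k[X] K b) P) := by
    intro P
    have := exists_pull φ h2K haK hbK habK P
    rwa [hφ, hφ] at this
  have pull2 : ∀ T : Pt (crv (algebraMap k[X] K (a.comp g)) (algebraMap k[X] K (b.comp g))) K,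
      T + T = 0 → ∃ T₀ : Pt (crv (algebraMap k[X] K a) (algebraMap k[X] K b)) K, T₀ + T₀ = 0 ∧
        d0 (algebraMap k[X] K (a.comp g)) (algebraMap k[X] K (b.comp g)) T =
          φ (d0 (algebraMap k[X] K a) (algebraMap k[X] K b) T₀) ∧
        d1 (algebraMap k[X] K (a.comp g)) (algebraMap k[X] K (b.comp g)) T =
          φ (d1 (algebraMap k[X] K a) (algebraMap k[X] K b) T₀) := by
    have := two_pull h2K φ haK hbK habK
    rwa [hφ, hφ] at this
  choose P' hP0 hP1 using fun i => pull (P i)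
  refine ⟨P', fun S hS T Q hTT heq => ?_⟩
  obtain ⟨T₀, hT₀, hT0, hT1⟩ := pull2 T hTT
  obtain ⟨s0, s1⟩ := d_sum hT h2 ha' hb' hab' S P'
  obtain ⟨t0, t1⟩ := d_sum hT h2 ha hb hab S P
  obtain ⟨u0, u1⟩ := d_add' hT h2 ha hb hab (∑ i ∈ S, P i) T₀
  obtain ⟨v0, v1⟩ := d_add' hT h2 ha' hb' hab' T (Q + Q)
  obtain ⟨w0, w1⟩ := d_add' hT h2 ha' hb' hab' Q Q
  have sqmap : ∀ {x y : K}, SqEq x y → SqEq (φ x) (φ y) := by
    rintro x y ⟨c, hc, rfl⟩
    exact ⟨φ c, (_root_.map_ne_zero φ).2 hc, by rw [map_mul, map_pow]⟩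
  have hEK := isE (algebraMap k[X] K a) (algebraMap k[X] K b) K h2K haK hbK habK
  have haK' : algebraMap k[X] K (a.comp g) ≠ 0 := by simpa using ha'
  have hbK' : algebraMap k[X] K (b.comp g) ≠ 0 := by simpa using hb'
  have habK' : algebraMap k[X] K (a.comp g) ≠ algebraMap k[X] K (b.comp g) :=
    fun h => hab' (inj h)
  have hEK' := isE (algebraMap k[X] K (a.comp g)) (algebraMap k[X] K (b.comp g)) K h2K haK' hbK'
    habK'
  have sq1 : ∀ {x : K}, x ≠ 0 → SqEq (x * x) 1 := fun {x} hx => ⟨x, hx, by ring⟩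
  -- the two coordinates of `x = ∑ P i + T₀`
  have fin : ∀ {A B C D E G : K}, E ≠ 0 → SqEq A B → B = C → SqEq D C → SqEq A (E * G) →
      SqEq G 1 → SqEq (D * E) 1 := by
    intro A B C D E G hE h1 h3 h4 h5 h6
    subst h3
    have e1 : SqEq D (E * G) := h4.trans (h1.symm.trans h5)
    have e3 : SqEq (D * E) (E * G * E) := e1.mul (SqEq.refl E)
    have e4 : SqEq (E * G * E) 1 := by
      have e5 := (sq1 hE).mul h6
      rw [mul_one] at e5
      refine (SqEq.of_eq ?_).trans e5
      ring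
    exact e3.trans e4
  have key0 : SqEq (φ (d0 (algebraMap k[X] K a) (algebraMap k[X] K b) (∑ i ∈ S, P i + T₀))) 1 := by
    refine (sqmap u0).trans ?_
    rw [map_mul, ← hT0]
    refine fin (d0_ne hEK' T) s0 ?_ (sqmap t0) (heq ▸ v0) (w0.trans (sq1 (d0_ne hEK' Q)))
    rw [map_prod]
    exact Finset.prod_congr rfl fun i _ => hP0 i
  have key1 : SqEq (φ (d1 (algebraMap k[X] K a) (algebraMap k[X] K b) (∑ i ∈ S, P i + T₀))) 1 := by
    refine (sqmap u1).trans ?_
    rw [map_mul, ← hT1]
    refine fin (d1_ne hEK' T) s1 ?_ (sqmap t1) (heq ▸ v1) (w1.trans (sq1 (d1_ne hEK' Q)))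
    rw [map_prod]
    exact Finset.prod_congr rfl fun i _ => hP1 i
  set x := ∑ i ∈ S, P i + T₀ with hx
  obtain ⟨⟨A, B, D⟩, ht, q0, q1⟩ := triple_of hT h2 ha hb hab hco hsep hodd
    ((_root_.map_ne_zero _).2 (d0_ne hEK x)) ((_root_.map_ne_zero _).2 (d1_ne hEK x))
    ⟨fun v => locSol_pt h2K haK hbK habK _, locSol_pt h2K haK hbK habK _⟩ (fixed_pt x)
  obtain ⟨mA, mB, mD, sA, sB, sD, dA, dB, dD, -⟩ := ht
  simp only at mA mB mD sA sB sD dA dB dD q0 q1
  have psi : ∀ {y : K} {p : k[X]}, SqEq (algebraMap K F y) (emb k K F p) → SqEq (φ y) 1 →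
      SqEq (emb k K F (p.comp g)) 1 := by
    rintro y p ⟨c, hc, e⟩ h
    have e1 : SqEq (emb k K F (p.comp g)) (algebraMap K F (φ y)) := by
      refine SqEq.symm ⟨ψ c, (_root_.map_ne_zero ψ).2 hc, ?_⟩
      rw [← comm, e, map_mul, map_pow]
      congr 1
      show ψ (algebraMap K F (algebraMap k[X] K p)) = algebraMap K F (algebraMap k[X] K (p.comp g))
      rw [comm, hφ]
    have e3 := h.map (F := F)
    rw [map_one] at e3
    exact e1.trans e3
  have KAB : Keeps g (A * B) := by
    intro π h1 h3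
    rcases h1.prime.dvd_or_dvd h3 with h | h
    · exact hK π h1 (((h.trans dA).mul_right b).mul_right _)
    · exact hK π h1 (((h.trans dB).mul_left a).mul_right _)
  have KAD : Keeps g (A * D) := by
    intro π h1 h3
    rcases h1.prime.dvd_or_dvd h3 with h | h
    · exact hK π h1 (((h.trans dA).mul_right b).mul_right _)
    · exact hK π h1 ((h.trans dD).mul_left _)
  have f0 := sq_comp hT h2 hn (mul_ne_zero mA.ne_zero mB.ne_zero) KAB (psi q0 key0)
  have f1 := sq_comp hT h2 hn (mul_ne_zero mA.ne_zero mD.ne_zero) KAD (psi q1 key1)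
  obtain ⟨R, hR⟩ := half_K hT h2 ha hb hab hco hsep hodd x (q0.trans f0) (q1.trans f1)
  apply hP S hS T₀ (R - T₀) hT₀
  have e : ∑ i ∈ S, P i = (R + R) - T₀ := by
    rw [hR, hx, add_sub_cancel_right]
  rw [e]
  have e3 : T₀ + (R - T₀ + (R - T₀)) = (R + R) - T₀ := by abel
  rw [e3]

end ind

end Pool.Agent.Q59.PB
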