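import Pool.Agent.Q59.PB.Comp

/-!
The Tate conjecture at 2 for pull-backs.
-/

set_option autoImplicit false
set_option linter.all false

open Polynomial IsDedekindDomain WeierstrassCurve WeierstrassCurve.Affine
open scoped Classical

namespace Pool.Agent.Q59.PB

open Pool.Agent.TH115.GD

section pts

variable {K₀ K : Type} [Field K₀] [Field K]

/-- The pull-back of a point. -/
theorem exists_pull (φ : K₀ →+* K) (h2 : (2 : K) ≠ 0) {α β : K₀} (hα : α ≠ 0) (hβ : β ≠ 0)
    (hαβ : α ≠ β) (P : Pt (crv α β) K₀) :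
    ∃ Q : Pt (crv (φ α) (φ β)) K, d0 (φ α) (φ β) Q = φ (d0 α β P) ∧
      d1 (φ α) (φ β) Q = φ (d1 α β P) := by
  have inj := φ.injective
  have h20 : (2 : K₀) ≠ 0 := by
    intro h
    apply h2
    have := congrArg φ h
    rwa [map_ofNat, map_zero] at this
  have hα' : φ α ≠ 0 := (_root_.map_ne_zero φ).2 hα
  have hβ' : φ β ≠ 0 := (_root_.map_ne_zero φ).2 hβ
  have hαβ' : φ α ≠ φ β := fun h => hαβ (inj h)
  have hE0 := isE α β K₀ h20 hα hβ hαβ
  have hE := isE (φ α) (φ β) K h2 hα' hβ' hαβ'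
  rcases P with _ | ⟨x, y, hxy⟩
  · exact ⟨0, (map_one φ).symm, (map_one φ).symm⟩
  · have e := hE0.nonsingular.1 hxy
    have e' : (φ y) ^ 2 = φ x * (φ x - algebraMap K K (φ α)) * (φ x - algebraMap K K (φ β)) := by
      have := congrArg φ e
      rw [map_pow, map_mul, map_mul, map_sub, map_sub] at this
      exact this
    refine ⟨Point.some (φ x) (φ y) (hE.nonsingular.2 e'), ?_, ?_⟩
    · show (if φ x = 0 then φ α * φ β else φ x) = φ (if x = 0 then α * β else x)
      by_cases hx : x = 0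
      · rw [if_pos hx, if_pos (by rw [hx, map_zero]), map_mul]
      · rw [if_neg hx, if_neg ((_root_.map_ne_zero φ).2 hx)]
    · show (if φ x = φ α then φ α * (φ α - φ β) else φ x - φ α) =
        φ (if x = α then α * (α - β) else x - α)
      by_cases hx : x = α
      · rw [if_pos hx, if_pos (by rw [hx]), map_mul, map_sub]
      · rw [if_neg hx, if_neg (fun h => hx (inj h)), map_sub]

end pts

section main

variable {k k' K₀ F₀ K F : Type} [Field k] [Field k'] [Algebra k k'] [Field K₀] [Algebra k[X] K₀]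
  [Field F₀] [Algebra k'[X] F₀] [IsFractionRing k'[X] F₀] [Algebra K₀ F₀]
  [Field K] [Algebra k[X] K] [Field F] [Algebra k'[X] F] [IsFractionRing k'[X] F] [Algebra K F]

/-- The pull-back of the hypothesis on the points. -/
theorem enough_comp (hT₀ : IsTower k k' K₀ F₀) (hT : IsTower k k' K F) (h2 : (2 : k) ≠ 0)
    {a b g : k[X]} (ha : a ≠ 0) (hb : b ≠ 0) (hab : a ≠ b) (hg : Odd g.natDegree)
    (hK : Keeps g (a * b * (a - b))) (H : EnoughPoints K₀ F₀ a b) :
    EnoughPoints K F (a.comp g) (b.comp g) := by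
  haveI := hT₀.fracK
  haveI := hT.fracK
  have hn := hg.pos
  have h2K : (2 : K) ≠ 0 := tt h2
  have hn' : 0 < (g.map (algebraMap k k')).natDegree := by
    rw [natDegree_map]; exact hn
  let φ : K₀ →+* K := phi K₀ K g hn
  let ψ : F₀ →+* F := phi F₀ F (g.map (algebraMap k k')) hn'
  have hφ : ∀ p : k[X], φ (algebraMap k[X] K₀ p) = algebraMap k[X] K (p.comp g) := phi_alg hn
  have hψ : ∀ p : k'[X], ψ (algebraMap k'[X] F₀ p) =
      algebraMap k'[X] F (p.comp (g.map (algebraMap k k'))) := phi_alg hn'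
  have comm : ∀ x : K₀, ψ (algebraMap K₀ F₀ x) = algebraMap K F (φ x) := by
    intro x
    obtain ⟨p, q, hq, rfl⟩ := IsFractionRing.div_surjective (A := k[X]) x
    have key : ∀ p : k[X], ψ (algebraMap K₀ F₀ (algebraMap k[X] K₀ p)) =
        algebraMap K F (φ (algebraMap k[X] K₀ p)) := by
      intro p
      rw [hT₀.map, hψ, hφ, hT.map, map_comp]
    rw [map_div₀, map_div₀, map_div₀, map_div₀, key, key]
  have rep : ∀ (p : k[X]) (d : K₀), Represents K₀ F₀ p d → Represents K F (p.comp g) (φ d) := by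
    rintro p d ⟨c, hc, e⟩
    refine ⟨ψ c, (_root_.map_ne_zero ψ).2 hc, ?_⟩
    rw [← hφ, ← comm, ← comm, e, map_mul, map_pow]
  have hsub : a - b ≠ 0 := sub_ne_zero.2 hab
  intro A' B' D' hA' hB' hD' sA sB sD dA dB dD hinf
  obtain ⟨c1, A, n1, mA, dA0, eA⟩ := lift_dvd hn ha (hK.mono ((dvd_mul_right a b).mul_right _)) dA sA
  obtain ⟨c2, B, n2, mB, dB0, eB⟩ := lift_dvd hn hb (hK.mono ((dvd_mul_left b a).mul_right _)) dB sB
  rw [← sub_comp] at dD
  obtain ⟨c3, D, n3, mD, dD0, eD⟩ := lift_dvd hn hsub (hK.mono (dvd_mul_left _ _)) dD sD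
  have sq : ∀ {c : k} {A' A : k[X]}, Squarefree A' → A' = C c * A.comp g → Squarefree A := by
    intro c A' A h e
    rw [e] at h
    exact squarefree_of_comp hn h.of_mul_right
  obtain ⟨P, hP0, hP1⟩ := H A B D mA mB mD (sq sA eA) (sq sB eB) (sq sD eD) dA0 dB0 dD0
    (infCond_comp hg n1 n2 n3 eA eB eD hinf)
  have inj0 := IsFractionRing.injective k[X] K₀
  have haK : algebraMap k[X] K₀ a ≠ 0 := by simpa using ha
  have hbK : algebraMap k[X] K₀ b ≠ 0 := by simpa using hb
  have habK : algebraMap k[X] K₀ a ≠ algebraMap k[X] K₀ b := fun h => hab (inj0 h)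
  obtain ⟨Q, hQ0, hQ1⟩ := exists_pull φ h2K haK hbK habK P
  have fin : ∀ {u v : k} (hu : u ≠ 0) (hv : v ≠ 0) (p q : k[X]) (d : K₀),
      Represents K₀ F₀ (p * q) d →
        Represents K F (C u * p.comp g * (C v * q.comp g)) (φ d) := by
    intro u v hu hv p q d h
    have h1 := rep _ _ h
    have e : C u * p.comp g * (C v * q.comp g) = C (u * v) * (p * q).comp g := by
      rw [mul_comp, C_mul]; ring
    have h3 : SqEq (emb k K F (C u * p.comp g * (C v * q.comp g)))
        (emb k K F ((p * q).comp g)) := by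
      rw [e]
      exact emb_C_mul hT h2 (mul_ne_zero hu hv) _
    exact h3.trans h1
  revert Q
  rw [hφ, hφ]
  intro Q hQ0 hQ1
  refine ⟨Q, ?_, ?_⟩
  · rw [hQ0, eA, eB]
    exact fin n1 n2 A B _ hP0
  · rw [hQ1, eA, eD]
    exact fin n1 n3 A D _ hP1

/-- The pull-back of an elliptic surface with enough points. -/
theorem tate_comp (hT₀ : IsTower k k' K₀ F₀) (hT : IsTower k k' K F) (h2 : (2 : k) ≠ 0)
    {a b g : k[X]} (ha : a ≠ 0) (hb : b ≠ 0) (hab : a ≠ b) (hco : IsCoprime a b)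
    (hodd : Odd (max a.natDegree b.natDegree) ∨ TwoOddFactors a b) (hg : Odd g.natDegree)
    (hK : Keeps g (a * b * (a - b))) (H : EnoughPoints K₀ F₀ a b) :
    TateAtTwo (F := F) k'
      (crv (algebraMap k[X] K (a.comp g)) (algebraMap k[X] K (b.comp g))) := by
  have hn := hg.pos
  have hsub : a - b ≠ 0 := sub_ne_zero.2 hab
  have hprod : a * b * (a - b) ≠ 0 := mul_ne_zero (mul_ne_zero ha hb) hsub
  have Ka : Keeps g a := hK.mono ((dvd_mul_right a b).mul_right _)
  have Kb : Keeps g b := hK.mono ((dvd_mul_left b a).mul_right _)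
  have Kc : Keeps g (a - b) := hK.mono (dvd_mul_left _ _)
  have hab' : a.comp g ≠ b.comp g := by
    rw [← sub_ne_zero, ← sub_comp]
    exact comp_ne hn hsub
  refine criterion hT h2 (comp_ne hn ha) (comp_ne hn hb) hab' (coprime_comp hco) ?_ ?_
    (enough_comp hT₀ hT h2 ha hb hab hg hK H)
  · intro ρ hρ hd
    rw [← sub_comp, ← mul_comp, ← mul_comp] at hd
    obtain ⟨π, h1, h3, h4⟩ := irr_dvd hprod hρ hd
    exact (hK π h1 h3).2.of_dvd h4
  · rcases hodd with h | h
    · left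
      rw [natDegree_comp, natDegree_comp, Nat.mul_max_mul_right]
      exact h.mul hg
    · right
      rw [TwoOddFactors, ← sub_comp]
      rcases h with ⟨h1, h3⟩ | ⟨h1, h3⟩ | ⟨h1, h3⟩
      · exact Or.inl ⟨oddFactor_comp hg Ka h1, oddFactor_comp hg Kb h3⟩
      · exact Or.inr (Or.inl ⟨oddFactor_comp hg Ka h1, oddFactor_comp hg Kc h3⟩)
      · exact Or.inr (Or.inr ⟨oddFactor_comp hg Kb h1, oddFactor_comp hg Kc h3⟩)

end main

end Pool.Agent.Q59.PB
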