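import Pool.Agent.Q59.PB.Ind

/-!
Maximal rank is preserved by pull-backs; consequences.
-/

set_option autoImplicit false
set_option linter.all false

open Polynomial IsDedekindDomain WeierstrassCurve WeierstrassCurve.Affine
open scoped Classical

namespace Pool.Agent.Q59.PB

open Pool.Agent.TH115.GD

section cnt

variable {k : Type} [Field k]

theorem triples_comp {a b g : k[X]} (ha : a ≠ 0) (hb : b ≠ 0) (hab : a ≠ b)
    (hg : Odd g.natDegree) (hK : Keeps g (a * b * (a - b))) :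
    (Triples (a.comp g) (b.comp g)).encard ≤ (Triples a b).encard := by
  have hn := hg.pos
  have hsub : a - b ≠ 0 := sub_ne_zero.2 hab
  have Ka : Keeps g a := hK.mono ((dvd_mul_right a b).mul_right _)
  have Kb : Keeps g b := hK.mono ((dvd_mul_left b a).mul_right _)
  have Kc : Keeps g (a - b) := hK.mono (dvd_mul_left _ _)
  have H : ∀ t ∈ Triples (a.comp g) (b.comp g), ∃ s ∈ Triples a b, ∃ c1 c2 c3 : k,
      c1 ≠ 0 ∧ c2 ≠ 0 ∧ c3 ≠ 0 ∧ t.1 = C c1 * s.1.comp g ∧ t.2.1 = C c2 * s.2.1.comp g ∧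
        t.2.2 = C c3 * s.2.2.comp g := by
    rintro ⟨A', B', D'⟩ ⟨mA, mB, mD, sA, sB, sD, dA, dB, dD, hinf⟩
    simp only at mA mB mD sA sB sD dA dB dD hinf
    obtain ⟨c1, A, n1, mA', dA0, eA⟩ := lift_dvd hn ha Ka dA sA
    obtain ⟨c2, B, n2, mB', dB0, eB⟩ := lift_dvd hn hb Kb dB sB
    rw [← sub_comp] at dD
    obtain ⟨c3, D, n3, mD', dD0, eD⟩ := lift_dvd hn hsub Kc dD sD
    have sq : ∀ {c : k} {A' A : k[X]}, Squarefree A' → A' = C c * A.comp g → Squarefree A := by
      intro c A' A h e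
      rw [e] at h
      exact squarefree_of_comp hn h.of_mul_right
    exact ⟨(A, B, D), ⟨mA', mB', mD', sq sA eA, sq sB eB, sq sD eD, dA0, dB0, dD0,
      infCond_comp hg n1 n2 n3 eA eB eD hinf⟩, c1, c2, c3, n1, n2, n3, eA, eB, eD⟩
  choose! f hf c1 c2 c3 n1 n2 n3 e1 e2 e3 using H
  have inj : Set.InjOn f (Triples (a.comp g) (b.comp g)) := by
    intro t ht s hs hts
    have mon : ∀ {A A' B : k[X]} {c c' : k}, A.Monic → A'.Monic → A = C c * B → A' = C c' * B →
        A = A' := by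
      intro A A' B c c' h h' e e'
      have hc : c * B.leadingCoeff = 1 := by
        have := h.leadingCoeff
        rwa [e, leadingCoeff_mul, leadingCoeff_C] at this
      have hc' : c' * B.leadingCoeff = 1 := by
        have := h'.leadingCoeff
        rwa [e', leadingCoeff_mul, leadingCoeff_C] at this
      have hB : B.leadingCoeff ≠ 0 := right_ne_zero_of_mul (hc ▸ one_ne_zero)
      have : c = c' := mul_right_cancel₀ hB (hc.trans hc'.symm)
      rw [e, e', this]
    have q1 := e1 t ht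
    have q2 := e2 t ht
    have q3 := e3 t ht
    have r1 := e1 s hs
    have r2 := e2 s hs
    have r3 := e3 s hs
    rw [← hts] at r1 r2 r3
    obtain ⟨mA, mB, mD, -⟩ := ht
    obtain ⟨mA', mB', mD', -⟩ := hs
    exact Prod.ext (mon mA mA' q1 r1) (Prod.ext (mon mB mB' q2 r2) (mon mD mD' q3 r3))
  rw [← inj.encard_image]
  apply Set.encard_le_encard
  rintro _ ⟨t, ht, rfl⟩
  exact hf t ht

end cnt

section lin

variable {G : Type} [AddCommGroup G]

theorem even_of (d : ℕ) (P : Fin d → G)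
    (hP : ∀ S : Finset (Fin d), S.Nonempty → ∀ T Q : G, T + T = 0 → ∑ i ∈ S, P i ≠ T + (Q + Q))
    (z : Fin d → ℤ) (h : (∑ i, z i • P i) + (∑ i, z i • P i) = 0) (i : Fin d) : Even (z i) := by
  by_contra hi
  set S : Finset (Fin d) := Finset.univ.filter fun i => ¬ Even (z i) with hS
  have hne : S.Nonempty := ⟨i, by rw [hS, Finset.mem_filter]; exact ⟨Finset.mem_univ _, hi⟩⟩
  have hw : ∀ i, ∃ w : ℤ, z i = (if i ∈ S then 1 else 0) + (w + w) := by
    intro i
    by_cases hi : i ∈ S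
    · rw [if_pos hi]
      rw [hS, Finset.mem_filter, Int.not_even_iff_odd] at hi
      obtain ⟨w, hw⟩ := hi.2
      exact ⟨w, by rw [hw]; ring⟩
    · rw [if_neg hi]
      rw [hS, Finset.mem_filter, not_and, not_not] at hi
      obtain ⟨w, hw⟩ := hi (Finset.mem_univ _)
      exact ⟨w, by rw [hw]; ring⟩
  choose w hw using hw
  apply hP S hne (∑ i, z i • P i) (-∑ i, w i • P i) h
  have e : ∑ i, z i • P i = ∑ i ∈ S, P i + (∑ i, w i • P i + ∑ i, w i • P i) := by
    have e1 : ∀ i, z i • P i = (if i ∈ S then P i else 0) + (w i • P i + w i • P i) := by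
      intro i
      conv_lhs => rw [hw i, add_smul, add_smul]
      congr 1
      split_ifs
      · rw [one_smul]
      · rw [zero_smul]
    simp_rw [e1]
    rw [Finset.sum_add_distrib, Finset.sum_add_distrib]
    congr 1
    rw [Finset.sum_ite_mem, Finset.univ_inter]
  rw [e]
  abel

/-- Independence modulo two gives linear independence. -/
theorem linInd (h4 : ∀ R : G, (R + R) + (R + R) = 0 → R + R = 0) {d : ℕ} (P : Fin d → G)
    (hP : ∀ S : Finset (Fin d), S.Nonempty → ∀ T Q : G, T + T = 0 →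
      ∑ i ∈ S, P i ≠ T + (Q + Q)) : LinearIndependent ℤ P := by
  have key : ∀ (n : ℕ) (z : Fin d → ℤ), (∑ i, z i • P i) + (∑ i, z i • P i) = 0 →
      ∀ i, (2 : ℤ) ^ n ∣ z i := by
    intro n
    induction n with
    | zero => intro z _ i; rw [pow_zero]; exact one_dvd _
    | succ n ih =>
      intro z hz i
      choose w hw using even_of d P hP z hz
      have e : ∑ i, z i • P i = ∑ i, w i • P i + ∑ i, w i • P i := by
        rw [← Finset.sum_add_distrib]
        exact Finset.sum_congr rfl fun i _ => by rw [hw i, add_smul]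
      rw [e] at hz
      have h1 := ih w (h4 _ hz) i
      rw [hw i, pow_succ, ← mul_two]
      exact mul_dvd_mul h1 dvd_rfl
  rw [Fintype.linearIndependent_iff]
  intro z hz i
  have h1 := key (z i).natAbs z (by rw [hz, add_zero]) i
  by_contra hne
  have h3 := Int.le_of_dvd (abs_pos.2 hne) ((dvd_abs _ _).2 h1)
  have h5 : (z i).natAbs < 2 ^ (z i).natAbs := Nat.lt_two_pow_self
  have h6 : (2 : ℤ) ^ (z i).natAbs ≤ ((z i).natAbs : ℤ) := by
    rw [Int.natCast_natAbs]; exact h3
  have h7 : ((z i).natAbs : ℤ) < (2 : ℤ) ^ (z i).natAbs := by exact_mod_cast h5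
  exact absurd h6 (not_le.2 h7)

end lin

section final

variable {k k' K F : Type} [Field k] [Field k'] [Algebra k k'] [Field K] [Algebra k[X] K]
    [Field F] [Algebra k'[X] F] [IsFractionRing k'[X] F] [Algebra K F]

theorem hyps_comp {a b g : k[X]} (ha : a ≠ 0) (hb : b ≠ 0) (hab : a ≠ b) (hco : IsCoprime a b)
    (hodd : Odd (max a.natDegree b.natDegree) ∨ TwoOddFactors a b) (hg : Odd g.natDegree)
    (hK : Keeps g (a * b * (a - b))) :
    a.comp g ≠ 0 ∧ b.comp g ≠ 0 ∧ a.comp g ≠ b.comp g ∧ IsCoprime (a.comp g) (b.comp g) ∧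
    (∀ π : k[X], Irreducible π → π ∣ a.comp g * b.comp g * (a.comp g - b.comp g) →
      π.Separable) ∧
    (Odd (max (a.comp g).natDegree (b.comp g).natDegree) ∨
      TwoOddFactors (a.comp g) (b.comp g)) := by
  have hn := hg.pos
  have hsub : a - b ≠ 0 := sub_ne_zero.2 hab
  have hprod : a * b * (a - b) ≠ 0 := mul_ne_zero (mul_ne_zero ha hb) hsub
  have Ka : Keeps g a := hK.mono ((dvd_mul_right a b).mul_right _)
  have Kb : Keeps g b := hK.mono ((dvd_mul_left b a).mul_right _)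
  have Kc : Keeps g (a - b) := hK.mono (dvd_mul_left _ _)
  have hab' : a.comp g ≠ b.comp g := by
    rw [← sub_ne_zero, ← sub_comp]
    exact comp_ne hn hsub
  refine ⟨comp_ne hn ha, comp_ne hn hb, hab', coprime_comp hco, ?_, ?_⟩
  · intro ρ hρ hd
    rw [← sub_comp, ← mul_comp, ← mul_comp] at hd
    obtain ⟨π, h1, h3, h4⟩ := irr_dvd hprod hρ hd
    exact (hK π h1 h3).2.of_dvd h4
  · rcases hodd with h | h
    · left
      rw [natDegree_comp, natDegree_comp, Nat.mul_max_mul_right]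
      exact h.mul hg
    · right
      rw [TwoOddFactors, ← sub_comp]
      rcases h with ⟨h1, h3⟩ | ⟨h1, h3⟩ | ⟨h1, h3⟩
      · exact Or.inl ⟨oddFactor_comp hg Ka h1, oddFactor_comp hg Kb h3⟩
      · exact Or.inr (Or.inl ⟨oddFactor_comp hg Ka h1, oddFactor_comp hg Kc h3⟩)
      · exact Or.inr (Or.inr ⟨oddFactor_comp hg Kb h1, oddFactor_comp hg Kc h3⟩)

/-- A curve of maximal rank. -/
def MaxRk (k K : Type) [Field k] [Field K] [Algebra k[X] K] (a b : k[X]) (d : ℕ) : Prop :=
  (Triples a b).encard ≤ 2 ^ (d + 2) ∧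
    ∃ P : Fin d → Pt (crv (algebraMap k[X] K a) (algebraMap k[X] K b)) K,
      ∀ S : Finset (Fin d), S.Nonempty →
        ∀ T Q : Pt (crv (algebraMap k[X] K a) (algebraMap k[X] K b)) K, T + T = 0 →
          ∑ i ∈ S, P i ≠ T + (Q + Q)

theorem maxRk_comp (hT : IsTower k k' K F) (h2 : (2 : k) ≠ 0) {a b g : k[X]} (ha : a ≠ 0)
    (hb : b ≠ 0) (hab : a ≠ b) (hco : IsCoprime a b)
    (hodd : Odd (max a.natDegree b.natDegree) ∨ TwoOddFactors a b) (hg : Odd g.natDegree)
    (hK : Keeps g (a * b * (a - b))) {d : ℕ} (H : MaxRk k K a b d) :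
    MaxRk k K (a.comp g) (b.comp g) d := by
  obtain ⟨hd, P, hP⟩ := H
  exact ⟨(triples_comp ha hb hab hg hK).trans hd, ind_comp hT h2 ha hb hab hco hodd hg hK P hP⟩

/-- The consequences of maximal rank. -/
theorem maxRk_all (hT : IsTower k k' K F) [IsFractionRing k[X] K] (h2 : (2 : k) ≠ 0) {a b : k[X]}
    (ha : a ≠ 0) (hb : b ≠ 0) (hab : a ≠ b) (hco : IsCoprime a b)
    (hsep : ∀ π : k[X], Irreducible π → π ∣ a * b * (a - b) → π.Separable)
    (hodd : Odd (max a.natDegree b.natDegree) ∨ TwoOddFactors a b) {d : ℕ}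
    (H : MaxRk k K a b d) :
    TateAtTwo (F := F) k' (crv (algebraMap k[X] K a) (algebraMap k[X] K b)) ∧
    GeneratedBy (F := F) k' (crv (algebraMap k[X] K a) (algebraMap k[X] K b)) d ∧
    (∃ P : Fin d → Pt (crv (algebraMap k[X] K a) (algebraMap k[X] K b)) K,
      LinearIndependent ℤ P) ∧
    ShaTwo k (crv (algebraMap k[X] K a) (algebraMap k[X] K b)) := by
  obtain ⟨hd, P, hP⟩ := H
  refine ⟨?_, bound hT h2 ha hb hab hco hsep hodd hd, ⟨P, ?_⟩, ?_⟩
  · exact criterion hT h2 ha hb hab hco hsep hodd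
      (enough_of_rank hT h2 ha hb hab hco hsep hodd hd P hP)
  · exact linInd (noFourK hT h2 ha hb hab hco hsep hodd) P hP
  · exact shaTwo_of_rank h2 ha hb hab hco hodd
      ((Set.encard_le_encard fun t ht => ht.1).trans hd) P hP

end final

end Pool.Agent.Q59.PB
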