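import Pool.Agent.Q59.PB.Main
import Pool.Agent.TH115.GD.Gen2

/-!
The Tate conjecture at 2 for pull-backs of elliptic surfaces of maximal rank; pull-backs by
`t ^ n + c` over the rational numbers.
-/

set_option autoImplicit false
set_option linter.all false

open Polynomial IsDedekindDomain WeierstrassCurve WeierstrassCurve.Affine
open scoped Classical

namespace Pool.Agent.Q59.PB

open Pool.Agent.TH115.GD

theorem sep_of_comp {k : Type} [Field k] {π g : k[X]} (hπ : Irreducible π)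
    (h : Irreducible (π.comp g)) (hs : (π.comp g).Separable) : π.Separable := by
  rw [separable_iff_derivative_ne_zero hπ]
  rw [separable_iff_derivative_ne_zero h] at hs
  intro h0
  apply hs
  rw [derivative_comp, h0, zero_comp, mul_zero]

section gen

variable {k k' K F : Type} [Field k] [Field k'] [Algebra k k'] [Field K] [Algebra k[X] K]
    [Field F] [Algebra k'[X] F] [IsFractionRing k'[X] F] [Algebra K F]

theorem maxRank (hT : IsTower k k' K F)
    (h2 : (2 : k) ≠ 0) {a b : k[X]} (ha : a ≠ 0) (hb : b ≠ 0) (hab : a ≠ b) (hco : IsCoprime a b)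
    (hodd : Odd (max a.natDegree b.natDegree) ∨ TwoOddFactors a b)
    {d : ℕ} (hd : (Triples a b).encard ≤ 2 ^ (d + 2))
    (P : Fin d → Pt (crv (algebraMap k[X] K a) (algebraMap k[X] K b)) K)
    (hP : ∀ S : Finset (Fin d), S.Nonempty →
      ∀ T Q : Pt (crv (algebraMap k[X] K a) (algebraMap k[X] K b)) K, T + T = 0 →
        ∑ i ∈ S, P i ≠ T + (Q + Q)) {g : k[X]} (hg : Odd g.natDegree)
    (hK : ∀ π : k[X], Irreducible π → π ∣ a * b * (a - b) →
      Irreducible (π.comp g) ∧ (π.comp g).Separable) :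
    TateAtTwo (F := F) k'
      (crv (algebraMap k[X] K (a.comp g)) (algebraMap k[X] K (b.comp g))) :=
  tate_comp hT hT h2 ha hb hab hco hodd hg hK
    (enough_of_rank hT h2 ha hb hab hco (fun π h1 h3 => sep_of_comp h1 (hK π h1 h3).1 (hK π h1 h3).2)
      hodd hd P hP)

end gen

section rat

/-- For finitely many integers `s` there is an integer `c` such that no `s - c` is a power. -/
theorem exists_c (S : Finset ℤ) : ∃ c : ℤ, ∀ s ∈ S, ∀ (q : ℕ), 2 ≤ q → ∀ b : ℚ, b ^ q ≠ (s : ℚ) - c := by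
  obtain ⟨p, hp, hinj⟩ : ∃ p : ℤ → ℕ, (∀ s, (p s).Prime) ∧ Function.Injective p := by
    obtain ⟨e⟩ : Nonempty (ℤ ≃ ℕ) := ⟨Equiv.intEquivNat⟩
    exact ⟨fun s => Nat.nth Nat.Prime (e s), fun s => Nat.prime_nth_prime _,
      fun s t h => e.injective (Nat.nth_injective Nat.infinite_setOf_prime h)⟩
  have hpp : (S : Set ℤ).Pairwise (Function.onFun Nat.Coprime fun s => p s ^ 2) := by
    intro s _ t _ hst
    exact Nat.Coprime.pow 2 2 ((Nat.coprime_primes (hp s) (hp t)).2 fun h => hst (hinj h))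
  obtain ⟨c, hc⟩ := Nat.chineseRemainderOfFinset
    (fun s => ((s + p s) % (p s ^ 2 : ℕ)).toNat) (fun s => p s ^ 2) S
    (fun s _ => pow_ne_zero 2 (hp s).ne_zero) hpp
  refine ⟨c, fun s hs q hq b hb => ?_⟩
  haveI := Fact.mk (hp s)
  have h1 : ((p s ^ 2 : ℕ) : ℤ) ∣ (s + p s) - c := by
    have h3 := hc s hs
    have hpos : (0 : ℤ) < (p s ^ 2 : ℕ) := by exact_mod_cast pow_pos (hp s).pos 2
    have h4 : (((s + p s) % (p s ^ 2 : ℕ)).toNat : ℤ) = (s + p s) % (p s ^ 2 : ℕ) :=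
      Int.toNat_of_nonneg (Int.emod_nonneg _ hpos.ne')
    have h5 : (c : ℤ) ≡ (s + p s) % (p s ^ 2 : ℕ) [ZMOD (p s ^ 2 : ℕ)] := by
      rw [← h4]
      exact (Int.natCast_modEq_iff).2 h3
    have h6 : (c : ℤ) ≡ (s + p s) [ZMOD (p s ^ 2 : ℕ)] := h5.trans (Int.mod_modEq _ _)
    exact h6.dvd
  have h3 : padicValInt (p s) (s - c) = 1 := by
    obtain ⟨w, hw⟩ := h1
    have e : s - c = (p s : ℤ) * ((p s : ℤ) * w - 1) := by
      push_cast at hw
      linear_combination hw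
    have hne : (p s : ℤ) * w - 1 ≠ 0 := by
      intro h
      have : (p s : ℤ) ∣ 1 := ⟨w, by linear_combination -h⟩
      exact (Nat.prime_iff_prime_int.1 (hp s)).not_unit (isUnit_of_dvd_one this)
    rw [e, padicValInt.mul (by exact_mod_cast (hp s).ne_zero) hne]
    have h5 : padicValInt (p s) (p s : ℤ) = 1 := by
      rw [padicValInt.of_ne_one_ne_zero] <;> simp [(hp s).ne_one, (hp s).ne_zero]
    have h6 : padicValInt (p s) ((p s : ℤ) * w - 1) = 0 := by
      apply padicValInt.eq_zero_of_not_dvd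
      intro h
      have : (p s : ℤ) ∣ 1 := by
        have h7 := dvd_sub (dvd_mul_right (p s : ℤ) w) h
        rwa [sub_sub_cancel] at h7
      exact (Nat.prime_iff_prime_int.1 (hp s)).not_unit (isUnit_of_dvd_one this)
    rw [h5, h6]
  have h4 : padicValRat (p s) ((s : ℚ) - ((c : ℤ) : ℚ)) = 1 := by
    have : ((s : ℚ) - ((c : ℤ) : ℚ)) = ((s - c : ℤ) : ℚ) := by push_cast; rfl
    rw [this, padicValRat.of_int, h3]
    rfl
  have hb0 : b ≠ 0 := by
    rintro rfl
    rw [zero_pow (by omega)] at hb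
    rw [← hb] at h4
    simp at h4
  rw [← hb, padicValRat.pow] at h4
  have h5 : (q : ℤ) ∣ 1 := ⟨_, h4.symm⟩
  have h6 := Int.le_of_dvd one_pos h5
  omega

theorem irr_pow {n : ℕ} (hn : Odd n) {s c : ℤ}
    (h : ∀ (q : ℕ), 2 ≤ q → ∀ b : ℚ, b ^ q ≠ (s : ℚ) - c) {π : ℚ[X]} (hπ : Irreducible π)
    (hd : π ∣ X - C (s : ℚ)) : Irreducible (π.comp (X ^ n + C (c : ℚ))) := by
  have h1 : Associated π (X - C (s : ℚ)) := hπ.associated_of_dvd (irreducible_X_sub_C _) hd
  have h3 : Associated (π.comp (X ^ n + C (c : ℚ))) ((X - C (s : ℚ)).comp (X ^ n + C (c : ℚ))) := by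
    have := h1.map (compRingHom (X ^ n + C (c : ℚ)))
    exact this
  rw [h3.irreducible_iff]
  have e : (X - C (s : ℚ)).comp (X ^ n + C (c : ℚ)) = X ^ n - C ((s : ℚ) - c) := by
    rw [sub_comp, X_comp, C_comp, C_sub]
    ring
  rw [e]
  exact X_pow_sub_C_irreducible_of_odd hn fun p hp _ b => h p hp.two_le b

theorem maxRankRat {k' K F : Type} [Field k'] [Algebra ℚ k'] [Field K] [Algebra ℚ[X] K]
    [Field F] [Algebra k'[X] F] [IsFractionRing k'[X] F] [Algebra K F] (hT : IsTower ℚ k' K F)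
    {a b : ℚ[X]} (ha : a ≠ 0) (hb : b ≠ 0) (hab : a ≠ b) (hco : IsCoprime a b)
    (hodd : Odd (max a.natDegree b.natDegree) ∨ TwoOddFactors a b)
    (hlin : ∀ π : ℚ[X], Irreducible π → π ∣ a * b * (a - b) → ∃ s : ℤ, π ∣ X - C (s : ℚ))
    {d : ℕ} (hd : (Triples a b).encard ≤ 2 ^ (d + 2))
    (P : Fin d → Pt (crv (algebraMap ℚ[X] K a) (algebraMap ℚ[X] K b)) K)
    (hP : ∀ S : Finset (Fin d), S.Nonempty →
      ∀ T Q : Pt (crv (algebraMap ℚ[X] K a) (algebraMap ℚ[X] K b)) K, T + T = 0 →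
        ∑ i ∈ S, P i ≠ T + (Q + Q)) :
    ∃ c : ℤ, ∀ n : ℕ, Odd n → TateAtTwo (F := F) k'
      (crv (algebraMap ℚ[X] K (a.comp (X ^ n + C (c : ℚ))))
        (algebraMap ℚ[X] K (b.comp (X ^ n + C (c : ℚ))))) := by
  have hsub : a - b ≠ 0 := sub_ne_zero.2 hab
  have hprod : a * b * (a - b) ≠ 0 := mul_ne_zero (mul_ne_zero ha hb) hsub
  have hinj : Function.Injective (Int.cast : ℤ → ℚ) := Int.cast_injective
  obtain ⟨c, hc⟩ := exists_c ((a * b * (a - b)).roots.toFinset.preimage (Int.cast : ℤ → ℚ)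
    hinj.injOn)
  refine ⟨c, fun n hn => ?_⟩
  have hdeg : (X ^ n + C (c : ℚ)).natDegree = n := natDegree_X_pow_add_C
  refine maxRank hT two_ne_zero ha hb hab hco hodd hd P hP (by rw [hdeg]; exact hn) ?_
  intro π hπ hdv
  obtain ⟨s, hs⟩ := hlin π hπ hdv
  have h1 : Associated π (X - C (s : ℚ)) := hπ.associated_of_dvd (irreducible_X_sub_C _) hs
  have hroot : (s : ℚ) ∈ (a * b * (a - b)).roots := by
    rw [mem_roots hprod, ← dvd_iff_isRoot]
    exact h1.dvd'.trans hdv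
  have hirr := irr_pow hn (hc s (by
    rw [Finset.mem_preimage, Multiset.mem_toFinset]; exact hroot)) hπ hs
  exact ⟨hirr, hirr.separable⟩

end rat

end Pool.Agent.Q59.PB
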