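import Pool.Agent.Q59.PB.Max

/-!
Pull-backs by `t ^ (ℓ ^ m) + c`.
-/

set_option autoImplicit false
set_option linter.all false

open Polynomial IsDedekindDomain WeierstrassCurve WeierstrassCurve.Affine
open scoped Classical

namespace Pool.Agent.Q59.PB

open Pool.Agent.TH115.GD

theorem keeps_pow {k : Type} [Field k] {ℓ : ℕ} (hℓ : ℓ.Prime) (h2 : ℓ ≠ 2) (hc : (ℓ : k) ≠ 0)
    {c : k} {p : k[X]} (hlin : ∀ π : k[X], Irreducible π → π ∣ p →
      ∃ s : k, π ∣ X - C s ∧ ∀ b : k, b ^ ℓ ≠ s - c) (m : ℕ) : Keeps (X ^ ℓ ^ m + C c) p := by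
  intro π hπ hd
  obtain ⟨s, hs, hb⟩ := hlin π hπ hd
  have h1 : Associated π (X - C s) := hπ.associated_of_dvd (irreducible_X_sub_C _) hs
  have h3 : Associated (π.comp (X ^ ℓ ^ m + C c)) ((X - C s).comp (X ^ ℓ ^ m + C c)) :=
    h1.map (compRingHom (X ^ ℓ ^ m + C c))
  have e : (X - C s).comp (X ^ ℓ ^ m + C c) = X ^ ℓ ^ m - C (s - c) := by
    rw [sub_comp, X_comp, C_comp, C_sub]
    ring
  have hne : s - c ≠ 0 := fun h => hb 0 (by rw [h, zero_pow hℓ.ne_zero])
  rw [h3.irreducible_iff, e]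
  refine ⟨X_pow_sub_C_irreducible_of_prime_pow hℓ h2 m hb, ?_⟩
  have hsep : (X ^ ℓ ^ m - C (s - c)).Separable :=
    separable_X_pow_sub_C _ (by push_cast; exact pow_ne_zero _ hc) hne
  rw [← e] at hsep
  obtain ⟨u, hu⟩ := h3
  exact hsep.of_dvd ⟨u, hu.symm⟩

theorem odd_pow {k : Type} [Field k] {ℓ : ℕ} (hℓ : ℓ.Prime) (h2 : ℓ ≠ 2) (c : k) (m : ℕ) :
    Odd (X ^ ℓ ^ m + C c).natDegree := by
  rw [natDegree_X_pow_add_C]
  exact (hℓ.odd_of_ne_two h2).pow

theorem exists_keeps_rat {p : ℚ[X]} (hp : p ≠ 0)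
    (hlin : ∀ π : ℚ[X], Irreducible π → π ∣ p → ∃ s : ℤ, π ∣ X - C (s : ℚ)) :
    ∃ c : ℤ, ∀ n : ℕ, Odd n → Keeps (X ^ n + C (c : ℚ)) p := by
  have hinj : Function.Injective (Int.cast : ℤ → ℚ) := Int.cast_injective
  obtain ⟨c, hc⟩ := exists_c (p.roots.toFinset.preimage (Int.cast : ℤ → ℚ) hinj.injOn)
  refine ⟨c, fun n hn π hπ hdv => ?_⟩
  obtain ⟨s, hs⟩ := hlin π hπ hdv
  have h1 : Associated π (X - C (s : ℚ)) := hπ.associated_of_dvd (irreducible_X_sub_C _) hs
  have hroot : (s : ℚ) ∈ p.roots := by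
    rw [mem_roots hp, ← dvd_iff_isRoot]
    exact h1.dvd'.trans hdv
  have hirr := irr_pow hn (hc s (by
    rw [Finset.mem_preimage, Multiset.mem_toFinset]; exact hroot)) hπ hs
  exact ⟨hirr, hirr.separable⟩

theorem exists_tower (k K : Type) [Field k] [Field K] [Algebra k[X] K] [IsFractionRing k[X] K] :
    ∃ (k' F : Type) (_ : Field k') (_ : Algebra k k') (_ : Field F) (_ : Algebra k'[X] F)
      (_ : IsFractionRing k'[X] F) (_ : Algebra K F), IsTower k k' K F := by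
  let k' := SeparableClosure k
  let F := FractionRing k'[X]
  have hinj : Function.Injective ((algebraMap k'[X] F).comp (mapRingHom (algebraMap k k'))) := by
    intro x y h
    exact map_injective _ (algebraMap k k').injective (IsFractionRing.injective k'[X] F h)
  letI : Algebra K F := (IsFractionRing.lift (A := k[X]) (K := K) hinj).toAlgebra
  refine ⟨k', F, inferInstance, inferInstance, inferInstance, inferInstance, inferInstance,
    this, ?_⟩
  exact ⟨inferInstance, inferInstance, fun p => IsFractionRing.lift_algebraMap hinj p⟩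

end Pool.Agent.Q59.PB
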